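import Pool.Agent.Helper30.DL.GoalsC

/-! PACKET AFS: soundness of the affine arithmetic. -/

set_option autoImplicit false

namespace Pool.Agent.Helper40.DL

open Pool.Agent.Helper30.DL

/-- centre at the noise values -/
noncomputable def ctr (A : AF) (x y z : ℝ) : ℝ :=
  ((A.cp : ℝ) - A.cn) + ((A.xp : ℝ) - A.xn) * x + ((A.yp : ℝ) - A.yn) * y
    + ((A.zp : ℝ) - A.zn) * z

theorem enc_iff (A : AF) (x y z v : ℝ) :
    A.Enc x y z v ↔ |(10000000000 : ℝ) * v - ctr A x y z| ≤ A.r := Iff.rfl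

theorem ab_cast (p n : ℕ) : ((AF.ab p n : ℕ) : ℝ) = |(p : ℝ) - n| := by
  have h : AF.ab p n = (p - n) + (n - p) := rfl
  rw [h]
  rcases le_total p n with h1 | h1
  · rw [Nat.sub_eq_zero_of_le h1, zero_add, Nat.cast_sub h1, abs_sub_comm, abs_of_nonneg]
    have : (p : ℝ) ≤ n := by exact_mod_cast h1
    linarith
  · rw [Nat.sub_eq_zero_of_le h1, add_zero, Nat.cast_sub h1, abs_of_nonneg]
    have : (n : ℝ) ≤ p := by exact_mod_cast h1
    linarith

theorem add_cp (A B : AF) : A + B = ⟨A.cp + B.cp, A.cn + B.cn, A.xp + B.xp, A.xn + B.xn,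
    A.yp + B.yp, A.yn + B.yn, A.zp + B.zp, A.zn + B.zn, A.r + B.r⟩ := rfl

theorem sub_cp (A B : AF) : A - B = ⟨A.cp + B.cn, A.cn + B.cp, A.xp + B.xn, A.xn + B.xp,
    A.yp + B.yn, A.yn + B.yp, A.zp + B.zn, A.zn + B.zp, A.r + B.r⟩ := rfl

theorem neg_cp (A : AF) : -A = ⟨A.cn, A.cp, A.xn, A.xp, A.yn, A.yp, A.zn, A.zp, A.r⟩ := rfl

theorem smul_cp (n : ℕ) (A : AF) : n • A = ⟨n * A.cp, n * A.cn, n * A.xp, n * A.xn,
    n * A.yp, n * A.yn, n * A.zp, n * A.zn, n * A.r⟩ := rfl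

theorem addr_cp (A : AF) (r : ℕ) : A.addr r = ⟨A.cp, A.cn, A.xp, A.xn, A.yp, A.yn, A.zp, A.zn,
    A.r + r⟩ := rfl

theorem enc_add {A B : AF} {x y z v w : ℝ} (hA : A.Enc x y z v) (hB : B.Enc x y z w) :
    (A + B).Enc x y z (v + w) := by
  rw [enc_iff] at *
  have h1 : ctr (A + B) x y z = ctr A x y z + ctr B x y z := by
    rw [add_cp]; unfold ctr; push_cast; ring
  have h2 : (((A + B).r : ℕ) : ℝ) = A.r + B.r := by rw [add_cp]; push_cast; rfl
  rw [h1, h2]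
  calc |(10000000000 : ℝ) * (v + w) - (ctr A x y z + ctr B x y z)|
      = |(10000000000 * v - ctr A x y z) + (10000000000 * w - ctr B x y z)| := by congr 1; ring
    _ ≤ _ := (abs_add_le _ _).trans (add_le_add hA hB)

theorem enc_neg {A : AF} {x y z v : ℝ} (hA : A.Enc x y z v) : (-A).Enc x y z (-v) := by
  rw [enc_iff] at *
  have h1 : ctr (-A) x y z = -ctr A x y z := by
    rw [neg_cp]; unfold ctr; push_cast; ring
  have h2 : (((-A).r : ℕ) : ℝ) = A.r := by rw [neg_cp]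
  rw [h1, h2]
  calc |(10000000000 : ℝ) * (-v) - (-ctr A x y z)|
      = |-(10000000000 * v - ctr A x y z)| := by congr 1; ring
    _ ≤ _ := by rw [abs_neg]; exact hA

theorem enc_sub {A B : AF} {x y z v w : ℝ} (hA : A.Enc x y z v) (hB : B.Enc x y z w) :
    (A - B).Enc x y z (v - w) := by
  have h : A - B = A + -B := by rw [sub_cp, add_cp, neg_cp]
  rw [h, sub_eq_add_neg]
  exact enc_add hA (enc_neg hB)

theorem enc_smul {A : AF} {x y z v : ℝ} (hA : A.Enc x y z v) (n : ℕ) :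
    (n • A).Enc x y z (n • v) := by
  rw [enc_iff] at *
  have h1 : ctr (n • A) x y z = n * ctr A x y z := by
    rw [smul_cp]; unfold ctr; push_cast; ring
  have h2 : (((n • A).r : ℕ) : ℝ) = n * A.r := by rw [smul_cp]; push_cast; rfl
  rw [h1, h2, nsmul_eq_mul]
  calc |(10000000000 : ℝ) * (n * v) - (n * ctr A x y z)|
      = |(n : ℝ) * (10000000000 * v - ctr A x y z)| := by congr 1; ring
    _ = n * |10000000000 * v - ctr A x y z| := by rw [abs_mul, abs_of_nonneg (Nat.cast_nonneg n)]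
    _ ≤ _ := mul_le_mul_of_nonneg_left hA (Nat.cast_nonneg n)

theorem enc_addr {A : AF} {x y z v : ℝ} (hA : A.Enc x y z v) (r : ℕ) (d : ℝ)
    (hd : |d| ≤ (r : ℝ) / 10000000000) : (A.addr r).Enc x y z (v + d) := by
  rw [enc_iff] at *
  have h1 : ctr (A.addr r) x y z = ctr A x y z := by rw [addr_cp]; rfl
  have h2 : (((A.addr r).r : ℕ) : ℝ) = A.r + r := by rw [addr_cp]; push_cast; rfl
  rw [h1, h2]
  have h3 : |(10000000000 : ℝ) * d| ≤ r := by
    rw [abs_mul, abs_of_pos (by norm_num)]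
    rw [le_div_iff₀ (by norm_num)] at hd
    linarith
  calc |(10000000000 : ℝ) * (v + d) - ctr A x y z|
      = |(10000000000 * v - ctr A x y z) + 10000000000 * d| := by congr 1; ring
    _ ≤ _ := (abs_add_le _ _).trans (add_le_add hA h3)

theorem dev_cast (A : AF) : ((A.dev : ℕ) : ℝ) = |(A.xp : ℝ) - A.xn| + |(A.yp : ℝ) - A.yn|
    + (|(A.zp : ℝ) - A.zn| + A.r) := by
  have h : A.dev = (AF.ab A.xp A.xn + AF.ab A.yp A.yn) + (AF.ab A.zp A.zn + A.r) := rfl
  rw [h]; push_cast; rw [ab_cast, ab_cast, ab_cast]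

theorem mag_cast (A : AF) : ((A.mag : ℕ) : ℝ) = |(A.cp : ℝ) - A.cn| + A.dev := by
  have h : A.mag = AF.ab A.cp A.cn + A.dev := rfl
  rw [h]; push_cast; rw [ab_cast]

theorem lin_le {p x : ℝ} (hx : |x| ≤ 1) : |p * x| ≤ |p| := by
  rw [abs_mul]
  exact mul_le_of_le_one_right (abs_nonneg p) hx

/-- deviation from the centre constant -/
theorem dev_bd {A : AF} {x y z v : ℝ} (hx : |x| ≤ 1) (hy : |y| ≤ 1) (hz : |z| ≤ 1)
    (hA : A.Enc x y z v) : |(10000000000 : ℝ) * v - ((A.cp : ℝ) - A.cn)| ≤ A.dev := by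
  rw [enc_iff] at hA
  rw [dev_cast]
  have h1 := lin_le (p := (A.xp : ℝ) - A.xn) hx
  have h2 := lin_le (p := (A.yp : ℝ) - A.yn) hy
  have h3 := lin_le (p := (A.zp : ℝ) - A.zn) hz
  have e : (10000000000 : ℝ) * v - ((A.cp : ℝ) - A.cn)
      = (10000000000 * v - ctr A x y z) + (((A.xp : ℝ) - A.xn) * x + ((A.yp : ℝ) - A.yn) * y
        + ((A.zp : ℝ) - A.zn) * z) := by unfold ctr; ring
  rw [e]
  have h4 := abs_add_le (10000000000 * v - ctr A x y z) (((A.xp : ℝ) - A.xn) * x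
    + ((A.yp : ℝ) - A.yn) * y + ((A.zp : ℝ) - A.zn) * z)
  have h5 := abs_add_le (((A.xp : ℝ) - A.xn) * x + ((A.yp : ℝ) - A.yn) * y)
    (((A.zp : ℝ) - A.zn) * z)
  have h6 := abs_add_le (((A.xp : ℝ) - A.xn) * x) (((A.yp : ℝ) - A.yn) * y)
  linarith

theorem mag_bd {A : AF} {x y z v : ℝ} (hx : |x| ≤ 1) (hy : |y| ≤ 1) (hz : |z| ≤ 1)
    (hA : A.Enc x y z v) : |(10000000000 : ℝ) * v| ≤ A.mag := by
  have h := dev_bd hx hy hz hA
  rw [mag_cast]
  have e : (10000000000 : ℝ) * v = ((A.cp : ℝ) - A.cn)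
    + (10000000000 * v - ((A.cp : ℝ) - A.cn)) := by ring
  rw [e]
  exact (abs_add_le _ _).trans (by linarith)

/-- difference of two floors -/
theorem floor_diff (m n : ℕ) : |((m : ℝ) - n) / 10000000000
    - (((m / 10000000000 : ℕ) : ℝ) - ((n / 10000000000 : ℕ) : ℝ))| ≤ 1 := by
  have h1 := Nat.div_mul_le_self m 10000000000
  have h2 : m < (m / 10000000000 + 1) * 10000000000 := by
    have := Nat.lt_div_mul_add (a := m) (b := 10000000000) (by norm_num)
    omega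
  have h3 := Nat.div_mul_le_self n 10000000000
  have h4 : n < (n / 10000000000 + 1) * 10000000000 := by
    have := Nat.lt_div_mul_add (a := n) (b := 10000000000) (by norm_num)
    omega
  generalize m / 10000000000 = q at *
  generalize n / 10000000000 = q' at *
  have g1 : (q : ℝ) * 10000000000 ≤ m := by exact_mod_cast h1
  have g2 : (m : ℝ) < (q + 1) * 10000000000 := by exact_mod_cast h2
  have g3 : (q' : ℝ) * 10000000000 ≤ n := by exact_mod_cast h3
  have g4 : (n : ℝ) < (q' + 1) * 10000000000 := by exact_mod_cast h4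
  rw [abs_le]
  constructor
  · rw [← sub_nonneg]
    have : 0 ≤ ((m : ℝ) - n) - 10000000000 * (q - q') + 10000000000 := by linarith
    have e : ((m : ℝ) - n) / 10000000000 - (q - q') - -1
      = (((m : ℝ) - n) - 10000000000 * (q - q') + 10000000000) / 10000000000 := by ring
    rw [e]; positivity
  · rw [← sub_nonneg]
    have : 0 ≤ 10000000000 - (((m : ℝ) - n) - 10000000000 * (q - q')) := by linarith
    have e : 1 - (((m : ℝ) - n) / 10000000000 - (q - q'))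
      = (10000000000 - (((m : ℝ) - n) - 10000000000 * (q - q'))) / 10000000000 := by ring
    rw [e]; positivity

theorem mul_cp (A B : AF) : A * B =
  ⟨(A.cp * B.cp + A.cn * B.cn) / 10000000000,
   (A.cp * B.cn + A.cn * B.cp) / 10000000000,
   ((A.cp * B.xp + A.cn * B.xn) + (A.xp * B.cp + A.xn * B.cn)) / 10000000000,
   ((A.cp * B.xn + A.cn * B.xp) + (A.xp * B.cn + A.xn * B.cp)) / 10000000000,
   ((A.cp * B.yp + A.cn * B.yn) + (A.yp * B.cp + A.yn * B.cn)) / 10000000000,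
   ((A.cp * B.yn + A.cn * B.yp) + (A.yp * B.cn + A.yn * B.cp)) / 10000000000,
   ((A.cp * B.zp + A.cn * B.zn) + (A.zp * B.cp + A.zn * B.cn)) / 10000000000,
   ((A.cp * B.zn + A.cn * B.zp) + (A.zp * B.cn + A.zn * B.cp)) / 10000000000,
   ((AF.ab A.cp A.cn * B.r + AF.ab B.cp B.cn * A.r) + A.dev * B.dev) / 10000000000 + 5⟩ := rfl

theorem enc_mul {A B : AF} {x y z v w : ℝ} (hx : |x| ≤ 1) (hy : |y| ≤ 1) (hz : |z| ≤ 1)
    (hA : A.Enc x y z v) (hB : B.Enc x y z w) : (A * B).Enc x y z (v * w) := by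
  have hdA := dev_bd hx hy hz hA
  have hdB := dev_bd hx hy hz hB
  rw [enc_iff] at *
  have hr : (((A * B).r : ℕ) : ℝ) = ((((AF.ab A.cp A.cn * B.r + AF.ab B.cp B.cn * A.r)
      + A.dev * B.dev) / 10000000000 : ℕ) : ℝ) + 5 := by rw [mul_cp]; push_cast; rfl
  rw [hr]
  have f1 := floor_diff (A.cp * B.cp + A.cn * B.cn) (A.cp * B.cn + A.cn * B.cp)
  have f2 := floor_diff ((A.cp * B.xp + A.cn * B.xn) + (A.xp * B.cp + A.xn * B.cn))
    ((A.cp * B.xn + A.cn * B.xp) + (A.xp * B.cn + A.xn * B.cp))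
  have f3 := floor_diff ((A.cp * B.yp + A.cn * B.yn) + (A.yp * B.cp + A.yn * B.cn))
    ((A.cp * B.yn + A.cn * B.yp) + (A.yp * B.cn + A.yn * B.cp))
  have f4 := floor_diff ((A.cp * B.zp + A.cn * B.zn) + (A.zp * B.cp + A.zn * B.cn))
    ((A.cp * B.zn + A.cn * B.zp) + (A.zp * B.cn + A.zn * B.cp))
  have hrad : ((AF.ab A.cp A.cn : ℕ) : ℝ) * B.r + (AF.ab B.cp B.cn : ℕ) * A.r + A.dev * B.dev
      ≤ 10000000000 * (((((AF.ab A.cp A.cn * B.r + AF.ab B.cp B.cn * A.r)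
      + A.dev * B.dev) / 10000000000 : ℕ) : ℝ) + 1) := by
    have h := Nat.lt_div_mul_add (a := (AF.ab A.cp A.cn * B.r + AF.ab B.cp B.cn * A.r)
      + A.dev * B.dev) (b := 10000000000) (by norm_num)
    have h' : (((AF.ab A.cp A.cn * B.r + AF.ab B.cp B.cn * A.r) + A.dev * B.dev : ℕ) : ℝ)
      < ((((AF.ab A.cp A.cn * B.r + AF.ab B.cp B.cn * A.r)
      + A.dev * B.dev) / 10000000000 * 10000000000 + 10000000000 : ℕ) : ℝ) := by
      exact_mod_cast h
    push_cast at h'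
    linarith
  rw [ab_cast, ab_cast] at hrad
  generalize ((((AF.ab A.cp A.cn * B.r + AF.ab B.cp B.cn * A.r)
      + A.dev * B.dev) / 10000000000 : ℕ) : ℝ) = ρ at *
  have hc : ctr (A * B) x y z = (((A.cp * B.cp + A.cn * B.cn) / 10000000000 : ℕ) : ℝ)
      - (((A.cp * B.cn + A.cn * B.cp) / 10000000000 : ℕ) : ℝ)
      + ((((A.cp * B.xp + A.cn * B.xn) + (A.xp * B.cp + A.xn * B.cn)) / 10000000000 : ℕ)
        - (((A.cp * B.xn + A.cn * B.xp) + (A.xp * B.cn + A.xn * B.cp)) / 10000000000 : ℕ)) * x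
      + ((((A.cp * B.yp + A.cn * B.yn) + (A.yp * B.cp + A.yn * B.cn)) / 10000000000 : ℕ)
        - (((A.cp * B.yn + A.cn * B.yp) + (A.yp * B.cn + A.yn * B.cp)) / 10000000000 : ℕ)) * y
      + ((((A.cp * B.zp + A.cn * B.zn) + (A.zp * B.cp + A.zn * B.cn)) / 10000000000 : ℕ)
        - (((A.cp * B.zn + A.cn * B.zp) + (A.zp * B.cn + A.zn * B.cp)) / 10000000000 : ℕ)) * z :=
    rfl
  rw [hc]
  generalize ((((A.cp * B.cp + A.cn * B.cn) / 10000000000 : ℕ) : ℝ)
      - (((A.cp * B.cn + A.cn * B.cp) / 10000000000 : ℕ) : ℝ)) = F1 at *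
  generalize ((((A.cp * B.xp + A.cn * B.xn) + (A.xp * B.cp + A.xn * B.cn)) / 10000000000 : ℕ) : ℝ)
        - ((((A.cp * B.xn + A.cn * B.xp) + (A.xp * B.cn + A.xn * B.cp)) / 10000000000 : ℕ) : ℝ)
        = F2 at *
  generalize ((((A.cp * B.yp + A.cn * B.yn) + (A.yp * B.cp + A.yn * B.cn)) / 10000000000 : ℕ) : ℝ)
        - ((((A.cp * B.yn + A.cn * B.yp) + (A.yp * B.cn + A.yn * B.cp)) / 10000000000 : ℕ) : ℝ)
        = F3 at *
  generalize ((((A.cp * B.zp + A.cn * B.zn) + (A.zp * B.cp + A.zn * B.cn)) / 10000000000 : ℕ) : ℝ)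
        - ((((A.cp * B.zn + A.cn * B.zp) + (A.zp * B.cn + A.zn * B.cp)) / 10000000000 : ℕ) : ℝ)
        = F4 at *
  push_cast at f1 f2 f3 f4
  unfold ctr at hA hB
  generalize (A.cp : ℝ) = a1 at *
  generalize (A.cn : ℝ) = a2 at *
  generalize (A.xp : ℝ) = a3 at *
  generalize (A.xn : ℝ) = a4 at *
  generalize (A.yp : ℝ) = a5 at *
  generalize (A.yn : ℝ) = a6 at *
  generalize (A.zp : ℝ) = a7 at *
  generalize (A.zn : ℝ) = a8 at *
  generalize (B.cp : ℝ) = b1 at *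
  generalize (B.cn : ℝ) = b2 at *
  generalize (B.xp : ℝ) = b3 at *
  generalize (B.xn : ℝ) = b4 at *
  generalize (B.yp : ℝ) = b5 at *
  generalize (B.yn : ℝ) = b6 at *
  generalize (B.zp : ℝ) = b7 at *
  generalize (B.zn : ℝ) = b8 at *
  generalize (A.r : ℝ) = r at *
  generalize (B.r : ℝ) = r' at *
  generalize (A.dev : ℝ) = dA at *
  generalize (B.dev : ℝ) = dB at *
  -- the remainder
  have hR : |(a1 - a2) * (10000000000 * w - (b1 - b2 + (b3 - b4) * x + (b5 - b6) * y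
        + (b7 - b8) * z))
      + (b1 - b2) * (10000000000 * v - (a1 - a2 + (a3 - a4) * x + (a5 - a6) * y
        + (a7 - a8) * z))
      + (10000000000 * v - (a1 - a2)) * (10000000000 * w - (b1 - b2))|
      ≤ |a1 - a2| * r' + |b1 - b2| * r + dA * dB := by
    refine (abs_add_le _ _).trans (add_le_add ((abs_add_le _ _).trans (add_le_add ?_ ?_)) ?_)
    · rw [abs_mul]; exact mul_le_mul_of_nonneg_left hB (abs_nonneg _)
    · rw [abs_mul]; exact mul_le_mul_of_nonneg_left hA (abs_nonneg _)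
    · rw [abs_mul]
      exact mul_le_mul hdA hdB (abs_nonneg _) (le_trans (abs_nonneg _) hdA)
  have g2 : |((((a1 * b3 + a2 * b4) + (a3 * b1 + a4 * b2)) - ((a1 * b4 + a2 * b3)
      + (a3 * b2 + a4 * b1))) / 10000000000 - F2) * x| ≤ 1 := by
    exact (lin_le hx).trans f2
  have g3 : |((((a1 * b5 + a2 * b6) + (a5 * b1 + a6 * b2)) - ((a1 * b6 + a2 * b5)
      + (a5 * b2 + a6 * b1))) / 10000000000 - F3) * y| ≤ 1 := by
    exact (lin_le hy).trans f3
  have g4 : |((((a1 * b7 + a2 * b8) + (a7 * b1 + a8 * b2)) - ((a1 * b8 + a2 * b7)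
      + (a7 * b2 + a8 * b1))) / 10000000000 - F4) * z| ≤ 1 := by
    exact (lin_le hz).trans f4
  have hR2 : |((a1 - a2) * (10000000000 * w - (b1 - b2 + (b3 - b4) * x + (b5 - b6) * y
        + (b7 - b8) * z))
      + (b1 - b2) * (10000000000 * v - (a1 - a2 + (a3 - a4) * x + (a5 - a6) * y
        + (a7 - a8) * z))
      + (10000000000 * v - (a1 - a2)) * (10000000000 * w - (b1 - b2))) / 10000000000|
      ≤ ρ + 1 := by
    rw [abs_div, abs_of_pos (by norm_num : (0 : ℝ) < 10000000000), div_le_iff₀ (by norm_num)]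
    linarith
  have key : (10000000000 : ℝ) * (v * w) - (F1 + F2 * x + F3 * y + F4 * z)
      = ((((a1 * b1 + a2 * b2) - (a1 * b2 + a2 * b1)) / 10000000000 - F1)
        + ((((a1 * b3 + a2 * b4) + (a3 * b1 + a4 * b2)) - ((a1 * b4 + a2 * b3)
      + (a3 * b2 + a4 * b1))) / 10000000000 - F2) * x
        + ((((a1 * b5 + a2 * b6) + (a5 * b1 + a6 * b2)) - ((a1 * b6 + a2 * b5)
      + (a5 * b2 + a6 * b1))) / 10000000000 - F3) * y
        + ((((a1 * b7 + a2 * b8) + (a7 * b1 + a8 * b2)) - ((a1 * b8 + a2 * b7)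
      + (a7 * b2 + a8 * b1))) / 10000000000 - F4) * z)
        + ((a1 - a2) * (10000000000 * w - (b1 - b2 + (b3 - b4) * x + (b5 - b6) * y
        + (b7 - b8) * z))
      + (b1 - b2) * (10000000000 * v - (a1 - a2 + (a3 - a4) * x + (a5 - a6) * y
        + (a7 - a8) * z))
      + (10000000000 * v - (a1 - a2)) * (10000000000 * w - (b1 - b2))) / 10000000000 := by
    ring
  rw [key]
  rw [abs_le] at *
  constructor <;> linarith [f1.1, f1.2, g2.1, g2.2, g3.1, g3.2, g4.1, g4.2, hR2.1, hR2.2]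

theorem one_enc (x y z : ℝ) : AF.one.Enc x y z 1 := by
  unfold AF.Enc AF.one
  norm_num

theorem pos_iff (A : AF) (h : A.pos = true) : A.cn + A.dev < A.cp := by
  have h1 : Nat.blt (A.cn + A.dev) A.cp = true := h
  rw [Nat.blt_eq] at h1
  exact h1

theorem enc_inv {A : AF} {x y z v : ℝ} (hx : |x| ≤ 1) (hy : |y| ≤ 1) (hz : |z| ≤ 1)
    (hA : A.Enc x y z v) (hp : A.pos = true) : 0 < v ∧ A.inv.Enc x y z v⁻¹ := by
  have hp' := pos_iff A hp
  have hd := dev_bd hx hy hz hA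
  have hlo : ((A.cp - (A.cn + A.dev) : ℕ) : ℝ) ≤ 10000000000 * v := by
    rw [Nat.cast_sub hp'.le]
    push_cast
    rw [abs_le] at hd
    linarith [hd.1]
  have hlo0 : (0 : ℝ) < ((A.cp - (A.cn + A.dev) : ℕ) : ℝ) := by
    have : 0 < A.cp - (A.cn + A.dev) := by omega
    exact_mod_cast this
  have hv : 0 < v := by nlinarith
  refine ⟨hv, ?_⟩
  set V : AF := AF.inv0 A (Nat.div 100000000000000000000 (Nat.sub A.cp A.cn)) with hV
  have hinv : A.inv = V.addr (AF.invr A V) := rfl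
  rw [hinv]
  set V0 : ℝ := ctr V x y z / 10000000000 with hV0
  have hVr : (V.r : ℝ) = 0 := by
    have : V.r = 0 := rfl
    rw [this]; norm_num
  have hVe : V.Enc x y z V0 := by
    rw [enc_iff, hVr, hV0]
    rw [mul_div_cancel₀ _ (by norm_num : (10000000000 : ℝ) ≠ 0)]
    simp
  have h1 : (V * A - AF.one).Enc x y z (V0 * v - 1) :=
    enc_sub (enc_mul hx hy hz hVe hA) (one_enc x y z)
  have h2 := mag_bd hx hy hz h1
  have hir : AF.invr A V = (AF.mag (V * A - AF.one) * 10000000000) / (A.cp - (A.cn + A.dev)) + 1 :=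
    rfl
  have h3 : ((AF.mag (V * A - AF.one) : ℕ) : ℝ) * 10000000000
      ≤ (AF.invr A V : ℕ) * ((A.cp - (A.cn + A.dev) : ℕ) : ℝ) := by
    rw [hir]
    have h := Nat.lt_div_mul_add (a := AF.mag (V * A - AF.one) * 10000000000)
      (b := A.cp - (A.cn + A.dev)) (by omega)
    have h' : ((AF.mag (V * A - AF.one) * 10000000000 : ℕ) : ℝ)
      < ((AF.mag (V * A - AF.one) * 10000000000 / (A.cp - (A.cn + A.dev))
        * (A.cp - (A.cn + A.dev)) + (A.cp - (A.cn + A.dev)) : ℕ) : ℝ) := by exact_mod_cast h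
    push_cast only [Nat.cast_mul, Nat.cast_add, Nat.cast_ofNat, Nat.cast_one] at h' ⊢
    linarith
  have e : v⁻¹ = V0 + (v⁻¹ - V0) := by ring
  rw [e]
  refine enc_addr hVe _ _ ?_
  rw [le_div_iff₀ (by norm_num)]
  have h4 : |v⁻¹ - V0| = |V0 * v - 1| / v := by
    have : v⁻¹ - V0 = -(V0 * v - 1) / v := by field_simp; ring
    rw [this, abs_div, abs_neg, abs_of_pos hv]
  rw [h4, div_mul_eq_mul_div, div_le_iff₀ hv]
  rw [abs_mul, abs_of_pos (by norm_num : (0 : ℝ) < 10000000000)] at h2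
  have h5 : (0 : ℝ) ≤ (AF.invr A V : ℕ) := Nat.cast_nonneg _
  have h6 : (AF.invr A V : ℕ) * ((A.cp - (A.cn + A.dev) : ℕ) : ℝ)
      ≤ (AF.invr A V : ℕ) * (10000000000 * v) := mul_le_mul_of_nonneg_left hlo h5
  nlinarith

theorem afs : AfsStmt := by
  intro x y z hx hy hz A B v w hA hB
  refine ⟨enc_add hA hB, enc_sub hA hB, enc_mul hx hy hz hA hB, enc_neg hA,
    fun n => enc_smul hA n, fun r d hd => enc_addr hA r d hd, mag_bd hx hy hz hA,
    fun h => enc_inv hx hy hz hA h, ?_, ?_⟩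
  · have h := dev_bd hx hy hz hA
    rw [abs_le] at h
    unfold AF.lo
    push_cast
    linarith [h.1]
  · have h := dev_bd hx hy hz hA
    rw [abs_le] at h
    unfold AF.hi
    push_cast
    linarith [h.2]

end Pool.Agent.Helper40.DL
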