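import Pool.Agent.Helper30.DL.GoalsD
import Pool.Agent.Helper40.DL.AFS

/-! PACKET BRS: soundness of the tree check for the bracket. -/

set_option autoImplicit false

namespace Pool.Agent.Helper40.DL

open Pool.Agent.Helper30.DL

theorem toNat_diff (c : ℤ) : ((c.toNat : ℕ) : ℝ) - (((-c).toNat : ℕ) : ℝ) = (c : ℝ) := by
  have h := Int.toNat_sub_toNat_neg c
  exact_mod_cast h

/-- noise value for an interval -/
theorem noise (lo hi : ℤ) (a : ℝ) (h1 : (lo : ℝ) ≤ 10000000000 * a)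
    (h2 : 10000000000 * a ≤ hi) :
    |10000000000 * a - (((lo + hi) / 2 : ℤ) : ℝ)| ≤ ((((hi - lo + 1) / 2).toNat : ℕ) : ℝ) := by
  have hle : lo ≤ hi := by exact_mod_cast h1.trans h2
  have hh0 : 0 ≤ (hi - lo + 1) / 2 := by omega
  have e1 : ((((hi - lo + 1) / 2).toNat : ℕ) : ℝ) = (((hi - lo + 1) / 2 : ℤ) : ℝ) := by
    have := Int.toNat_of_nonneg hh0
    exact_mod_cast this
  rw [e1]
  have h3 : (lo + hi) / 2 - (hi - lo + 1) / 2 ≤ lo := by omega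
  have h4 : hi ≤ (lo + hi) / 2 + (hi - lo + 1) / 2 := by omega
  have h3' : (((lo + hi) / 2 : ℤ) : ℝ) - (((hi - lo + 1) / 2 : ℤ) : ℝ) ≤ lo := by exact_mod_cast h3
  have h4' : (hi : ℝ) ≤ (((lo + hi) / 2 : ℤ) : ℝ) + (((hi - lo + 1) / 2 : ℤ) : ℝ) := by
    exact_mod_cast h4
  rw [abs_le]
  constructor <;> linarith

theorem exists_noise {d h : ℝ} (hd : |d| ≤ h) : ∃ x : ℝ, |x| ≤ 1 ∧ d = h * x := by
  have h0 : 0 ≤ h := (abs_nonneg d).trans hd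
  rcases h0.lt_or_eq with hp | hz
  · refine ⟨d / h, ?_, ?_⟩
    · rw [abs_div, abs_of_pos hp, div_le_one hp]; exact hd
    · field_simp
  · refine ⟨0, by simp, ?_⟩
    rw [← hz] at hd
    have := abs_nonpos_iff.mp hd
    rw [this]; ring

theorem ofX_enc (lo hi : ℤ) (a : ℝ) (h1 : (lo : ℝ) ≤ 10000000000 * a)
    (h2 : 10000000000 * a ≤ hi) : ∃ x : ℝ, |x| ≤ 1 ∧ ∀ y z : ℝ, (AF.ofX lo hi).Enc x y z a := by
  obtain ⟨x, hx, hxe⟩ := exists_noise (noise lo hi a h1 h2)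
  refine ⟨x, hx, fun y z => ?_⟩
  unfold AF.Enc AF.ofX
  have := toNat_diff ((lo + hi) / 2)
  rw [this]
  simp only [Nat.cast_zero, sub_zero, sub_self, zero_mul, add_zero]
  rw [← hxe]
  simp

theorem ofY_enc (lo hi : ℤ) (a : ℝ) (h1 : (lo : ℝ) ≤ 10000000000 * a)
    (h2 : 10000000000 * a ≤ hi) : ∃ y : ℝ, |y| ≤ 1 ∧ ∀ x z : ℝ, (AF.ofY lo hi).Enc x y z a := by
  obtain ⟨y, hy, hye⟩ := exists_noise (noise lo hi a h1 h2)
  refine ⟨y, hy, fun x z => ?_⟩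
  unfold AF.Enc AF.ofY
  have := toNat_diff ((lo + hi) / 2)
  rw [this]
  simp only [Nat.cast_zero, sub_zero, sub_self, zero_mul, add_zero]
  rw [← hye]
  simp

theorem ofR_enc (lo hi : ℤ) (a : ℝ) (h1 : (lo : ℝ) ≤ 10000000000 * a)
    (h2 : 10000000000 * a ≤ hi) (x y z : ℝ) : (AF.ofR lo hi).Enc x y z a := by
  unfold AF.Enc AF.ofR
  have := toNat_diff ((lo + hi) / 2)
  rw [this]
  simp only [Nat.cast_zero, sub_self, zero_mul, add_zero]
  exact noise lo hi a h1 h2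

theorem ofI_enc (v : ℤ) (x y z : ℝ) : (AF.ofI v).Enc x y z ((v : ℝ) / 10000000000) := by
  unfold AF.Enc AF.ofI AF.cst
  have := toNat_diff v
  rw [this]
  simp
  ring

theorem cst_enc (r : ℕ) (v : ℝ) (h : |v| ≤ (r : ℝ) / 10000000000) (x y z : ℝ) :
    (AF.cst 0 0 r).Enc x y z v := by
  unfold AF.Enc AF.cst
  simp only [Nat.cast_zero, sub_self, zero_mul, add_zero, sub_zero]
  rw [abs_mul, abs_of_pos (by norm_num : (0 : ℝ) < 10000000000)]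
  rw [le_div_iff₀ (by norm_num)] at h
  linarith

/-- the bracket as an average -/
theorem br_avg (C : Cf ℝ) (a x y z g0 g1 g2 : ℝ)
    (h : ∀ g g' g'' : ℝ, (g = g0 ∨ g = g1 ∨ g = g2) → (g' = g0 ∨ g' = g1 ∨ g' = g2) →
      (g'' = g0 ∨ g'' = g1 ∨ g'' = g2) →
      (C.g2k + C.g2l.ev x y + C.g2q.ev x y + C.g2c.ev x y + z * C.h3 + C.ca * a)
        + g * (3 * (C.g3k + C.g3l.ev x y + C.g3q.ev x y)
          + g' * (6 * (C.g4k + C.g4l.ev x y) + 10 * (C.g5k * g''))) ≤ 0) :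
    Br C a x y z g0 g1 g2 ≤ 0 := by
  unfold Br
  set A2 := C.g2k + C.g2l.ev x y + C.g2q.ev x y + C.g2c.ev x y + z * C.h3 + C.ca * a
  set A3 := C.g3k + C.g3l.ev x y + C.g3q.ev x y
  set A4 := C.g4k + C.g4l.ev x y
  set A5 := C.g5k
  have h000 := h g0 g0 g0 (by simp) (by simp) (by simp)
  have h111 := h g1 g1 g1 (by simp) (by simp) (by simp)
  have h222 := h g2 g2 g2 (by simp) (by simp) (by simp)
  have h001 := h g0 g0 g1 (by simp) (by simp) (by simp)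
  have h010 := h g0 g1 g0 (by simp) (by simp) (by simp)
  have h100 := h g1 g0 g0 (by simp) (by simp) (by simp)
  have h002 := h g0 g0 g2 (by simp) (by simp) (by simp)
  have h020 := h g0 g2 g0 (by simp) (by simp) (by simp)
  have h200 := h g2 g0 g0 (by simp) (by simp) (by simp)
  have h110 := h g1 g1 g0 (by simp) (by simp) (by simp)
  have h101 := h g1 g0 g1 (by simp) (by simp) (by simp)
  have h011 := h g0 g1 g1 (by simp) (by simp) (by simp)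
  have h112 := h g1 g1 g2 (by simp) (by simp) (by simp)
  have h121 := h g1 g2 g1 (by simp) (by simp) (by simp)
  have h211 := h g2 g1 g1 (by simp) (by simp) (by simp)
  have h220 := h g2 g2 g0 (by simp) (by simp) (by simp)
  have h202 := h g2 g0 g2 (by simp) (by simp) (by simp)
  have h022 := h g0 g2 g2 (by simp) (by simp) (by simp)
  have h221 := h g2 g2 g1 (by simp) (by simp) (by simp)
  have h212 := h g2 g1 g2 (by simp) (by simp) (by simp)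
  have h122 := h g1 g2 g2 (by simp) (by simp) (by simp)
  have h012 := h g0 g1 g2 (by simp) (by simp) (by simp)
  have h021 := h g0 g2 g1 (by simp) (by simp) (by simp)
  have h102 := h g1 g0 g2 (by simp) (by simp) (by simp)
  have h120 := h g1 g2 g0 (by simp) (by simp) (by simp)
  have h201 := h g2 g0 g1 (by simp) (by simp) (by simp)
  have h210 := h g2 g1 g0 (by simp) (by simp) (by simp)
  linear_combination (1 / 10) * h000 + (1 / 10) * h111 + (1 / 10) * h222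
    + (1 / 30) * h001 + (1 / 30) * h010 + (1 / 30) * h100
    + (1 / 30) * h002 + (1 / 30) * h020 + (1 / 30) * h200
    + (1 / 30) * h110 + (1 / 30) * h101 + (1 / 30) * h011
    + (1 / 30) * h112 + (1 / 30) * h121 + (1 / 30) * h211
    + (1 / 30) * h220 + (1 / 30) * h202 + (1 / 30) * h022
    + (1 / 30) * h221 + (1 / 30) * h212 + (1 / 30) * h122
    + (1 / 60) * h012 + (1 / 60) * h021 + (1 / 60) * h102
    + (1 / 60) * h120 + (1 / 60) * h201 + (1 / 60) * h210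

/-- the leaf -/
theorem brs_leaf (hG : GserStmt) (T : Tb AF) (P : Pm) (em t z : ℝ) (eh om : ℤ)
    (X0 X1 Y0 Y1 d0 d1 : ℤ)
    (ht0 : 0 < t) (ht1 : t ≤ Real.pi / 14) (hT : TabAt T P em t z)
    (hrun : (brA T.C T.K0 eh om X0 X1 Y0 Y1 d0 d1).hi ≤ 0)
    (a y ζ b0 b1 b2 : ℝ) (ha0 : -1 ≤ a) (ha1 : a ≤ 3 / 4)
    (hX0 : (X0 : ℝ) ≤ 10000000000 * a) (hX1 : 10000000000 * a ≤ X1)
    (hY0 : (Y0 : ℝ) ≤ 10000000000 * y) (hY1 : 10000000000 * y ≤ Y1)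
    (hz0 : (om : ℝ) * a + d0 ≤ 10000000000 * ζ) (hz1 : 10000000000 * ζ ≤ (om : ℝ) * a + d1)
    (hb0 : 0 ≤ b0) (hb0' : 10000000000 * b0 ≤ eh) (hb1 : 0 ≤ b1) (hb1' : 10000000000 * b1 ≤ eh)
    (hb2 : 0 ≤ b2) (hb2' : 10000000000 * b2 ≤ eh) :
    Br (mkCf P t) a (a - ζ) y ζ (gf t 0 a - a * b0) (gf t 0 a - a * b1) (gf t 0 a - a * b2) ≤ 0 := by
  obtain ⟨hz, htab, hc8, -⟩ := hT
  obtain ⟨nx, hnx, ea⟩ := ofX_enc X0 X1 a hX0 hX1
  obtain ⟨ny, hny, ey⟩ := ofY_enc Y0 Y1 y hY0 hY1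
  have Ea := ea ny z
  have Ey := ey nx z
  have htb := htab nx ny hnx hny
  obtain ⟨c8, hc, hgf⟩ := hG t 0 a ht0 ht1 le_rfl (by norm_num) ha0 ha1
  have Ec8 : (T.K0.c8).Enc nx ny z c8 := by
    rw [hc8]
    exact cst_enc _ _ (by norm_num at hc ⊢; exact hc) _ _ _
  simp only [EncTb, Tb.toL, Cf.toL, Gs.toL, List.cons_append, List.nil_append,
    List.forall₂_cons] at htb
  obtain ⟨-, -, -, -, -, -, -, -, eh3, -, -, eca,
   -, -, -, -, -, -, -, -, -, -, -,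
   -, -, -, -, -, -, -,
   -, -, -, -, -, eg2k, eg2la, eg2lb,
   eg2qa, eg2qb, eg2qc, eg2ca, eg2cb, eg2cc, eg2cd,
   eg3k, eg3la, eg3lb, eg3qa, eg3qb, eg3qc, eg4k, eg4la, eg4lb, eg5k,
   -, -, -, -, -, -,
   -, k2, k3', k4, k5, k6, k7, -⟩ := htb
  have Eze : (AF.ofI om * AF.ofX X0 X1 + AF.ofR d0 d1).Enc nx ny z ζ := by
    have e1 := enc_mul hnx hny hz (ofI_enc om nx ny z) Ea
    have e2 := ofR_enc d0 d1 (ζ - om / 10000000000 * a) (by linarith) (by linarith) nx ny z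
    have := enc_add e1 e2
    convert this using 1
    ring
  set A := AF.ofX X0 X1 with hA
  set Z := AF.ofI om * A + AF.ofR d0 d1 with hZ
  have Ex : (A - Z).Enc nx ny z (a - ζ) := enc_sub Ea Eze
  have M : ∀ {A B : AF} {v w : ℝ}, A.Enc nx ny z v → B.Enc nx ny z w →
    (A * B).Enc nx ny z (v * w) := fun h1 h2 => enc_mul hnx hny hz h1 h2
  -- the forms of the g_i
  have EG : ∀ b : ℝ, 0 ≤ b → 10000000000 * b ≤ eh →
      (A * (A * (T.K0.c2 + A * k3 T.K0 A)) - A * AF.ofR 0 eh).Enc nx ny z (gf t 0 a - a * b) := by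
    intro b hb hb'
    have eb := ofR_enc 0 eh b (by push_cast; linarith) hb' nx ny z
    have hk : (k3 T.K0 A).Enc nx ny z (k3 (mkGs t 0 c8) a) := by
      unfold k3
      exact enc_add k3' (M Ea (enc_add k4 (M Ea (enc_add k5 (M Ea (enc_add k6 (M Ea
        (enc_add k7 (M Ea Ec8)))))))))
    have h1 := enc_sub (M Ea (M Ea (enc_add k2 (M Ea hk)))) (M Ea eb)
    have h2 : gf t 0 a = a * (a * ((mkTb P em t).K0.c2 + a * k3 (mkGs t 0 c8) a)) := by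
      rw [hgf]
      have hc1 : (mkGs t 0 c8).c1 = 0 := by
        show -(0 * ph t) = 0
        ring
      have hc2 : (mkTb P em t).K0.c2 = (mkGs t 0 c8).c2 := rfl
      rw [hc2]
      unfold Gs.ev k3
      rw [hc1]
      ring
    rw [h2]
    exact h1
  apply br_avg
  intro g g' g'' hg hg' hg''
  have EGg : ∀ g : ℝ, (g = gf t 0 a - a * b0 ∨ g = gf t 0 a - a * b1 ∨ g = gf t 0 a - a * b2) →
      (A * (A * (T.K0.c2 + A * k3 T.K0 A)) - A * AF.ofR 0 eh).Enc nx ny z g := by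
    rintro g (rfl | rfl | rfl)
    · exact EG b0 hb0 hb0'
    · exact EG b1 hb1 hb1'
    · exact EG b2 hb2 hb2'
  have G1 := EGg g hg
  have G2 := EGg g' hg'
  have G3 := EGg g'' hg''
  have EA2 := enc_add (enc_add (enc_add (enc_add eg2k (M Ex (enc_add (enc_add eg2la
      (M Ex (enc_add eg2qa (M Ex eg2ca)))) (M Ey (enc_add (enc_add eg2qb (M Ey eg2cc))
        (M Ex eg2cb)))))) (M Ey (enc_add eg2lb (M Ey (enc_add eg2qc (M Ey eg2cd))))))
      (M Eze eh3)) (M eca Ea)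
  have EA3 := enc_add (enc_add eg3k (M Ex (enc_add (enc_add eg3la (M Ex eg3qa)) (M Ey eg3qb))))
    (M Ey (enc_add eg3lb (M Ey eg3qc)))
  have EA4 := enc_add (enc_add eg4k (M Ex eg4la)) (M Ey eg4lb)
  have EE := enc_add EA2 (M G1 (enc_add (enc_smul EA3 3) (M G2 (enc_add (enc_smul EA4 6)
    (enc_smul (M eg5k G3) 10)))))
  have hfin := (afs nx ny z hnx hny hz _ _ _ _ EE EE).2.2.2.2.2.2.2.2.2
  have hrun' : ((brA T.C T.K0 eh om X0 X1 Y0 Y1 d0 d1).hi : ℝ) ≤ 0 := by exact_mod_cast hrun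
  have hfin2 := hfin.trans hrun'
  have key : (0 : ℝ) ≤ 10000000000 := by norm_num
  have h10 : ∀ v : ℝ, 10000000000 * v ≤ 0 → v ≤ 0 := fun v hv => by linarith
  have h11 := h10 _ hfin2
  simp only [nsmul_eq_mul] at h11
  push_cast at h11
  simp only [H1.ev, H2.ev, H3.ev]
  have hC : (mkTb P em t).C = mkCf P t := rfl
  rw [hC] at h11
  linarith

theorem brs (hG : GserStmt) : BrsStmt := by
  intro T P em t z eh om tr
  induction tr with
  | lf s n =>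
    intro X0 X1 Y0 Y1 d0 d1 ht0 ht1 _ _ hT _ hrun a y ζ b0 b1 b2 ha0 ha1 hX0 hX1 hY0 hY1 hz0 hz1
      hb0 hb0' hb1 hb1' hb2 hb2'
    unfold Tr.runB at hrun
    exact brs_leaf hG T P em t z eh om X0 X1 Y0 Y1 d0 d1 ht0 ht1 hT (of_decide_eq_true hrun) a y ζ
      b0 b1 b2 ha0 ha1 hX0 hX1 hY0 hY1 hz0 hz1 hb0 hb0' hb1 hb1' hb2 hb2'
  | ou =>
    intro X0 X1 Y0 Y1 d0 d1 _ _ _ _ _ _ hrun
    unfold Tr.runB at hrun
    exact absurd hrun (by simp)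
  | sx p l r ihl ihr =>
    intro X0 X1 Y0 Y1 d0 d1 ht0 ht1 he0 he1 hT heh hrun a y ζ b0 b1 b2 ha0 ha1 hX0 hX1 hY0 hY1 hz0
      hz1 hb0 hb0' hb1 hb1' hb2 hb2'
    unfold Tr.runB at hrun
    rw [Bool.and_eq_true] at hrun
    rcases le_total (10000000000 * a) (p : ℝ) with h | h
    · exact ihl X0 p Y0 Y1 d0 d1 ht0 ht1 he0 he1 hT heh hrun.1 a y ζ b0 b1 b2 ha0 ha1 hX0 h hY0 hY1
        hz0 hz1 hb0 hb0' hb1 hb1' hb2 hb2'
    · exact ihr p X1 Y0 Y1 d0 d1 ht0 ht1 he0 he1 hT heh hrun.2 a y ζ b0 b1 b2 ha0 ha1 h hX1 hY0 hY1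
        hz0 hz1 hb0 hb0' hb1 hb1' hb2 hb2'
  | sy p l r ihl ihr =>
    intro X0 X1 Y0 Y1 d0 d1 ht0 ht1 he0 he1 hT heh hrun a y ζ b0 b1 b2 ha0 ha1 hX0 hX1 hY0 hY1 hz0
      hz1 hb0 hb0' hb1 hb1' hb2 hb2'
    unfold Tr.runB at hrun
    rw [Bool.and_eq_true] at hrun
    rcases le_total (10000000000 * y) (p : ℝ) with h | h
    · exact ihl X0 X1 Y0 p d0 d1 ht0 ht1 he0 he1 hT heh hrun.1 a y ζ b0 b1 b2 ha0 ha1 hX0 hX1 hY0 h
        hz0 hz1 hb0 hb0' hb1 hb1' hb2 hb2'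
    · exact ihr X0 X1 p Y1 d0 d1 ht0 ht1 he0 he1 hT heh hrun.2 a y ζ b0 b1 b2 ha0 ha1 hX0 hX1 h hY1
        hz0 hz1 hb0 hb0' hb1 hb1' hb2 hb2'
  | sz p l r ihl ihr =>
    intro X0 X1 Y0 Y1 d0 d1 ht0 ht1 he0 he1 hT heh hrun a y ζ b0 b1 b2 ha0 ha1 hX0 hX1 hY0 hY1 hz0
      hz1 hb0 hb0' hb1 hb1' hb2 hb2'
    unfold Tr.runB at hrun
    rw [Bool.and_eq_true] at hrun
    rcases le_total (10000000000 * ζ) ((om : ℝ) * a + p) with h | h
    · exact ihl X0 X1 Y0 Y1 d0 p ht0 ht1 he0 he1 hT heh hrun.1 a y ζ b0 b1 b2 ha0 ha1 hX0 hX1 hY0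
        hY1 hz0 h hb0 hb0' hb1 hb1' hb2 hb2'
    · exact ihr X0 X1 Y0 Y1 p d1 ht0 ht1 he0 he1 hT heh hrun.2 a y ζ b0 b1 b2 ha0 ha1 hX0 hX1 hY0
        hY1 h hz1 hb0 hb0' hb1 hb1' hb2 hb2'

end Pool.Agent.Helper40.DL
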