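import Pool.Agent.Helper30.DL.GoalsB

/-! PACKET EVL: evaluation of the polynomial lower bound in complex form. -/

set_option autoImplicit false

open Complex (I)
open Finset

namespace Pool.Agent.Helper40.DL

open Pool.Agent.Helper30.DL

theorem re1_ev (c X : ℂ) : (re1 c).ev X.re X.im = (c * X).re := by
  simp only [re1, H1.ev, Complex.mul_re]; ring

theorem re2_ev (c X : ℂ) : (re2 c).ev X.re X.im = (c * X ^ 2).re := by
  simp only [re2, H2.ev, Complex.mul_re, Complex.mul_im, pow_two]; ring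

theorem ab2_ev (r : ℝ) (X : ℂ) : (ab2 r).ev X.re X.im = r * Complex.normSq X := by
  simp only [ab2, H2.ev, Complex.normSq_apply]; ring

theorem re3_ev (c X : ℂ) : (re3 c).ev X.re X.im = (c * X ^ 3).re := by
  simp only [re3, H3.ev, Complex.mul_re, Complex.mul_im, pow_succ, pow_zero, one_mul]; ring

theorem ab3_ev (c X : ℂ) : (ab3 c).ev X.re X.im = (c * (X ^ 2 * cj X)).re := by
  simp only [ab3, H3.ev, cj, Complex.mul_re, Complex.mul_im, Complex.conj_re, Complex.conj_im,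
    pow_succ, pow_zero, one_mul]; ring

theorem re4_ev (c X : ℂ) : (re4 c).ev X.re X.im = (c * X ^ 4).re := by
  simp only [re4, H4.ev, Complex.mul_re, Complex.mul_im, pow_succ, pow_zero, one_mul]; ring

theorem ab4_ev (c X : ℂ) : (ab4 c).ev X.re X.im = (c * (X ^ 3 * cj X)).re := by
  simp only [ab4, H4.ev, cj, Complex.mul_re, Complex.mul_im, Complex.conj_re, Complex.conj_im,
    pow_succ, pow_zero, one_mul]; ring

theorem aa4_ev (r : ℝ) (X : ℂ) : (aa4 r).ev X.re X.im = r * Complex.normSq X ^ 2 := by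
  simp only [aa4, H4.ev, Complex.normSq_apply]; ring

theorem re5_ev (c X : ℂ) : (re5 c).ev X.re X.im = (c * X ^ 5).re := by
  simp only [re5, H5.ev, Complex.mul_re, Complex.mul_im, pow_succ, pow_zero, one_mul]; ring

theorem ab5_ev (c X : ℂ) : (ab5 c).ev X.re X.im = (c * (X ^ 4 * cj X)).re := by
  simp only [ab5, H5.ev, cj, Complex.mul_re, Complex.mul_im, Complex.conj_re, Complex.conj_im,
    pow_succ, pow_zero, one_mul]; ring

theorem aa5_ev (c X : ℂ) : (aa5 c).ev X.re X.im = (c * (X ^ 3 * cj X ^ 2)).re := by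
  simp only [aa5, H5.ev, cj, Complex.mul_re, Complex.mul_im, Complex.conj_re, Complex.conj_im,
    pow_succ, pow_zero, one_mul]; ring

theorem add1_ev (a b : H1 ℝ) (x y : ℝ) : (a.add b).ev x y = a.ev x y + b.ev x y := by
  simp only [H1.add, H1.ev]; ring

theorem add2_ev (a b : H2 ℝ) (x y : ℝ) : (a.add b).ev x y = a.ev x y + b.ev x y := by
  simp only [H2.add, H2.ev]; ring

theorem add3_ev (a b : H3 ℝ) (x y : ℝ) : (a.add b).ev x y = a.ev x y + b.ev x y := by
  simp only [H3.add, H3.ev]; ring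

theorem add4_ev (a b : H4 ℝ) (x y : ℝ) : (a.add b).ev x y = a.ev x y + b.ev x y := by
  simp only [H4.add, H4.ev]; ring

theorem add5_ev (a b : H5 ℝ) (x y : ℝ) : (a.add b).ev x y = a.ev x y + b.ev x y := by
  simp only [H5.add, H5.ev]; ring

theorem cj_mul (a b : ℂ) : cj (a * b) = cj a * cj b := by simp [cj]

theorem nsq_om (t : ℝ) : Complex.normSq (om t) = on t := by
  simp only [om, on, Complex.normSq_apply]; ring

/-- `R4` -/
theorem R4_ev (P : Pm) (t : ℝ) (X : ℂ) : (mkCf P t).R4.ev X.re X.im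
    = (P.c40 * dl t 4 * (ik t * X) ^ 4).re
      + (P.c31 * dl t 2 * ((ik t * X) ^ 3 * cj (ik t * X))).re := by
  simp only [mkCf, add4_ev, re4_ev, ab4_ev, cj_mul]
  congr 2 <;> ring

theorem R5_ev (P : Pm) (t : ℝ) (X : ℂ) : (mkCf P t).R5.ev X.re X.im
    = (P.c50 * dl t 5 * (ik t * X) ^ 5).re
      + (P.c41 * dl t 3 * ((ik t * X) ^ 4 * cj (ik t * X))).re
      + (P.c32 * dl t 1 * ((ik t * X) ^ 3 * cj (ik t * X) ^ 2)).re := by
  simp only [mkCf, add5_ev, re5_ev, ab5_ev, aa5_ev, cj_mul]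
  have h1 : P.c50 * dl t 5 * ik t ^ 5 * X ^ 5 = P.c50 * dl t 5 * (ik t * X) ^ 5 := by ring
  have h2 : P.c41 * dl t 3 * (ik t ^ 4 * cj (ik t)) * (X ^ 4 * cj X)
      = P.c41 * dl t 3 * ((ik t * X) ^ 4 * (cj (ik t) * cj X)) := by ring
  have h3 : P.c32 * dl t 1 * (ik t ^ 3 * cj (ik t) ^ 2) * (X ^ 3 * cj X ^ 2)
      = P.c32 * dl t 1 * ((ik t * X) ^ 3 * (cj (ik t) * cj X) ^ 2) := by ring
  rw [h1, h2, h3]

/-- degree one in `g`, cubic -/
theorem g1c_ev (P : Pm) (t : ℝ) (X : ℂ) : (mkCf P t).g1c.ev X.re X.im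
    = ((4 * P.c40 + P.c31) * (om t * X) ^ 3).re
      + ((3 * P.c31 + (4 * P.c22 : ℝ)) * ((om t * X) ^ 2 * cj (om t * X))).re := by
  simp only [mkCf, add3_ev, re3_ev, ab3_ev, cj_mul]
  have h1 : (4 * P.c40 + P.c31) * om t ^ 3 * X ^ 3 = (4 * P.c40 + P.c31) * (om t * X) ^ 3 := by
    ring
  have h2 : (3 * P.c31 + (4 * P.c22 : ℝ)) * (om t ^ 2 * cj (om t)) * (X ^ 2 * cj X)
      = (3 * P.c31 + (4 * P.c22 : ℝ)) * ((om t * X) ^ 2 * (cj (om t) * cj X)) := by ring
  rw [h1, h2]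

/-- degree one in `g`, quartic -/
theorem g1f_ev (P : Pm) (t : ℝ) (X : ℂ) : (mkCf P t).g1f.ev X.re X.im
    = ((5 * P.c50 + P.c41) * (om t * X) ^ 4).re
      + ((4 * P.c41 + 2 * P.c32) * ((om t * X) ^ 3 * cj (om t * X))).re
      + 3 * P.c32.re * Complex.normSq (om t * X) ^ 2 := by
  simp only [mkCf, add4_ev, re4_ev, ab4_ev, aa4_ev, cj_mul, map_mul, nsq_om]
  have h1 : (5 * P.c50 + P.c41) * om t ^ 4 * X ^ 4 = (5 * P.c50 + P.c41) * (om t * X) ^ 4 := by
    ring
  have h2 : (4 * P.c41 + 2 * P.c32) * (om t ^ 3 * cj (om t)) * (X ^ 3 * cj X)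
      = (4 * P.c41 + 2 * P.c32) * ((om t * X) ^ 3 * (cj (om t) * cj X)) := by ring
  rw [h1, h2]; ring

theorem g1_ev (P : Pm) (t : ℝ) (X : ℂ) : (mkCf P t).g1.ev X.re X.im
    = ((3 * c30 P t + c21 P t) * (om t * X) ^ 2).re
      + 2 * (c21 P t).re * Complex.normSq (om t * X)
      + (al P t * (om t * X) ^ 2).re + be P t * Complex.normSq (om t * X)
      + (am P t * (2 * (om t * X)) * (w1 t * X + w2 t * cj X)).re
      + be P t * (2 * (om t * X)).re * (lk t * X).re := by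
  simp only [mkCf, add2_ev, re2_ev, ab2_ev, ← nsq_om, cj]
  generalize c30 P t = c30
  generalize c21 P t = c21
  generalize al P t = al
  generalize am P t = am
  generalize be P t = be
  generalize om t = o
  generalize lk t = lk
  generalize w1 t = w1
  generalize w2 t = w2
  simp only [Complex.mul_re, Complex.mul_im, Complex.add_re, Complex.add_im, pow_two,
    Complex.conj_re, Complex.conj_im, Complex.normSq_apply, Complex.ofReal_re, Complex.ofReal_im,
    Complex.re_ofNat, Complex.im_ofNat]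
  ring

theorem g2q_ev (P : Pm) (t : ℝ) (X : ℂ) : (mkCf P t).g2q.ev X.re X.im
    = -(th t * (((6 * P.c40 + 3 * P.c31 + (2 * P.c22 : ℝ)) * (om t * X) ^ 2).re
      + (3 * P.c31.re + 4 * P.c22) * Complex.normSq (om t * X)))
      + (mkG P t).g22 * (2 * (om t * X)).re ^ 2
      + 2 * ((mkG P t).g23 * ((2 * (om t * X)).re * (2 * (om t * X)).im))
      + (mkG P t).g33 * (2 * (om t * X)).im ^ 2 := by
  simp only [mkCf, H2.add, re2, ← nsq_om, t11, t12, H2.ev]
  generalize (mkG P t).g22 = g22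
  generalize (mkG P t).g23 = g23
  generalize (mkG P t).g33 = g33
  generalize om t = o
  simp only [Complex.mul_re, Complex.mul_im, Complex.add_re, Complex.add_im, pow_two,
    Complex.normSq_apply, Complex.ofReal_re, Complex.ofReal_im,
    Complex.re_ofNat, Complex.im_ofNat]
  ring

theorem g2l_ev (P : Pm) (t : ℝ) (X : ℂ) : (mkCf P t).g2l.ev X.re X.im
    = -(th t * (((3 * c30 P t + 2 * c21 P t + cj (c21 P t) + 2 * (al P t + be P t))
        * (om t * X)).re + (am P t * (w1 t * X + w2 t * cj X)).re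
        + be P t * (lk t * X).re))
      + 2 * ((mkG P t).g12 * (2 * (om t * X)).re + (mkG P t).g13 * (2 * (om t * X)).im) := by
  simp only [mkCf, H1.add, re1, t11, t12, H1.ev, cj]
  generalize (mkG P t).g12 = g12
  generalize (mkG P t).g13 = g13
  generalize c30 P t = c30
  generalize c21 P t = c21
  generalize al P t = al
  generalize am P t = am
  generalize be P t = be
  generalize om t = o
  generalize lk t = lk
  generalize w1 t = w1
  generalize w2 t = w2
  simp only [Complex.mul_re, Complex.mul_im, Complex.add_re, Complex.add_im,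
    Complex.conj_re, Complex.conj_im, Complex.ofReal_re, Complex.ofReal_im, Complex.neg_re,
    Complex.neg_im, Complex.re_ofNat, Complex.im_ofNat]
  ring

theorem g2c_ev (P : Pm) (t : ℝ) (X : ℂ) : (mkCf P t).g2c.ev X.re X.im
    = -(th t * (((10 * P.c50 + 4 * P.c41 + P.c32) * (om t * X) ^ 3).re
      + ((6 * P.c41 + 6 * P.c32 + 3 * cj P.c32) * ((om t * X) ^ 2 * cj (om t * X))).re)) := by
  simp only [mkCf, add3_ev, re3_ev, ab3_ev, cj_mul]
  have h1 : ((-th t : ℝ) : ℂ) * ((10 * P.c50 + 4 * P.c41 + P.c32) * om t ^ 3) * X ^ 3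
      = ((-th t : ℝ) : ℂ) * ((10 * P.c50 + 4 * P.c41 + P.c32) * (om t * X) ^ 3) := by ring
  have h2 : ((-th t : ℝ) : ℂ) * ((6 * P.c41 + 6 * P.c32 + 3 * cj P.c32)
      * (om t ^ 2 * cj (om t))) * (X ^ 2 * cj X)
      = ((-th t : ℝ) : ℂ) * ((6 * P.c41 + 6 * P.c32 + 3 * cj P.c32)
        * ((om t * X) ^ 2 * (cj (om t) * cj X))) := by ring
  rw [h1, h2, Complex.re_ofReal_mul, Complex.re_ofReal_mul]; ring

theorem g3l_ev (P : Pm) (t : ℝ) (X : ℂ) : (mkCf P t).g3l.ev X.re X.im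
    = th t ^ 2 * ((4 * P.c40 + 3 * P.c31 + cj P.c31 + (4 * P.c22 : ℝ)) * (om t * X)).re
      - 2 * th t * ((mkG P t).g22 * (2 * (om t * X)).re
        + (mkG P t).g23 * (2 * (om t * X)).im) := by
  simp only [mkCf, H1.add, re1, t11, t12, H1.ev, cj]
  generalize (mkG P t).g22 = g22
  generalize (mkG P t).g23 = g23
  generalize om t = o
  simp only [Complex.mul_re, Complex.mul_im, Complex.add_re, Complex.add_im,
    Complex.conj_re, Complex.conj_im, Complex.ofReal_re, Complex.ofReal_im,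
    Complex.re_ofNat, Complex.im_ofNat]
  ring

theorem g3q_ev (P : Pm) (t : ℝ) (X : ℂ) : (mkCf P t).g3q.ev X.re X.im
    = th t ^ 2 * (((10 * P.c50 + 6 * P.c41 + 3 * P.c32 + cj P.c32) * (om t * X) ^ 2).re
      + (4 * P.c41.re + 6 * P.c32.re) * Complex.normSq (om t * X)) := by
  simp only [mkCf, add2_ev, re2_ev, ab2_ev, map_mul, nsq_om]
  have h1 : ((th t ^ 2 : ℝ) : ℂ) * ((10 * P.c50 + 6 * P.c41 + 3 * P.c32 + cj P.c32) * om t ^ 2)
      * X ^ 2 = ((th t ^ 2 : ℝ) : ℂ) * ((10 * P.c50 + 6 * P.c41 + 3 * P.c32 + cj P.c32)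
        * (om t * X) ^ 2) := by ring
  rw [h1, Complex.re_ofReal_mul]; ring

theorem g4l_ev (P : Pm) (t : ℝ) (X : ℂ) : (mkCf P t).g4l.ev X.re X.im
    = -(th t ^ 3 * ((5 * P.c50 + 4 * P.c41 + cj P.c41 + 3 * P.c32 + 2 * cj P.c32)
      * (om t * X)).re) := by
  simp only [mkCf, re1_ev]
  have h1 : ((-(th t ^ 3) : ℝ) : ℂ) * ((5 * P.c50 + 4 * P.c41 + cj P.c41 + 3 * P.c32
      + 2 * cj P.c32) * om t) * X = ((-(th t ^ 3) : ℝ) : ℂ) * ((5 * P.c50 + 4 * P.c41
      + cj P.c41 + 3 * P.c32 + 2 * cj P.c32) * (om t * X)) := by ring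
  rw [h1, Complex.re_ofReal_mul]; ring

theorem eq_ev (P : Pm) (t : ℝ) (X : ℂ) : (mkCf P t).eq.ev X.re X.im
    = ph t * (kl t * (om t * X) ^ 2).re := by
  simp only [mkCf, re2_ev]
  have h1 : (ph t : ℂ) * (kl t * om t ^ 2) * X ^ 2 = (ph t : ℂ) * (kl t * (om t * X) ^ 2) := by
    ring
  rw [h1, Complex.re_ofReal_mul]

theorem el_ev (P : Pm) (t : ℝ) (X : ℂ) : (mkCf P t).el.ev X.re X.im
    = ph t * (kap t * lam t * Dm t 2 * (2 * (om t * X))).re := by
  simp only [mkCf, re1_ev]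
  have h1 : ((2 * ph t : ℝ) : ℂ) * (kap t * lam t * Dm t 2 * om t) * X
      = (ph t : ℂ) * (kap t * lam t * Dm t 2 * (2 * (om t * X))) := by
    push_cast; ring
  rw [h1, Complex.re_ofReal_mul]

theorem hx_ev (P : Pm) (t : ℝ) (X : ℂ) : (mkCf P t).hx.ev X.re X.im
    = ((am P t * muk t * (2 * (om t * X))).re + be P t * (2 * (om t * X)).re)
      + (2 * (mkG P t).g02 + (P.nu2 * lk t).re) * (2 * (om t * X)).re
      + (2 * (mkG P t).g03 + (P.nu3 * lk t).re) * (2 * (om t * X)).im := by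
  simp only [mkCf, re1, t11, t12, H1.ev]
  generalize (mkG P t).g02 = g02
  generalize (mkG P t).g03 = g03
  generalize (P.nu2 * lk t).re = n2
  generalize (P.nu3 * lk t).re = n3
  generalize am P t = am
  generalize muk t = mk
  generalize be P t = be
  generalize om t = o
  simp only [Complex.mul_re, Complex.mul_im, Complex.add_re, Complex.add_im,
    Complex.ofReal_re, Complex.ofReal_im, Complex.re_ofNat, Complex.im_ofNat]
  ring

theorem la_ev (P : Pm) (t : ℝ) (X : ℂ) : (mkCf P t).la.ev X.re X.im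
    = -(th t * ((al P t * chh t * (2 * (om t * X))).re
      + be P t * ph t * (2 * (om t * X)).re)) := by
  simp only [mkCf, re1_ev]
  generalize al P t = al
  generalize chh t = ch
  generalize be P t = be
  generalize om t = o
  generalize th t = th
  generalize ph t = ph
  simp only [Complex.mul_re, Complex.mul_im, Complex.add_re, Complex.add_im,
    Complex.ofReal_re, Complex.ofReal_im, Complex.re_ofNat, Complex.im_ofNat]
  ring

theorem evl : EvlStmt := by
  intro P t e a z g X U T hU hT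
  have hTr : T.re = (2 * U).re - th t * g := by rw [hT, Complex.sub_re, Complex.ofReal_re]
  have hTi : T.im = (2 * U).im := by rw [hT, Complex.sub_im, Complex.ofReal_im, sub_zero]
  simp only [Phi, R4_ev, R5_ev, g1_ev, g1c_ev, g1f_ev, g2q_ev, g2l_ev, g2c_ev, g3l_ev, g3q_ev,
    g4l_ev, eq_ev, el_ev, hx_ev, la_ev]
  rw [← hU]
  simp only [mkCf]
  generalize (P.c40 * dl t 4 * (ik t * X) ^ 4).re = q1
  generalize (P.c31 * dl t 2 * ((ik t * X) ^ 3 * cj (ik t * X))).re = q2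
  generalize (P.c50 * dl t 5 * (ik t * X) ^ 5).re = q3
  generalize (P.c41 * dl t 3 * ((ik t * X) ^ 4 * cj (ik t * X))).re = q4
  generalize (P.c32 * dl t 1 * ((ik t * X) ^ 3 * cj (ik t * X) ^ 2)).re = q5
  generalize ((3 * c30 P t + c21 P t) * U ^ 2).re = q6
  generalize ((4 * P.c40 + P.c31) * U ^ 3).re = q7
  generalize ((3 * P.c31 + (4 * P.c22 : ℝ)) * (U ^ 2 * cj U)).re = q8
  generalize ((5 * P.c50 + P.c41) * U ^ 4).re = q9
  generalize ((4 * P.c41 + 2 * P.c32) * (U ^ 3 * cj U)).re = q10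
  generalize ((6 * P.c40 + 3 * P.c31 + (2 * P.c22 : ℝ)) * U ^ 2).re = q11
  generalize ((10 * P.c50 + 4 * P.c41 + P.c32) * U ^ 3).re = q12
  generalize ((6 * P.c41 + 6 * P.c32 + 3 * cj P.c32) * (U ^ 2 * cj U)).re = q13
  generalize ((4 * P.c40 + 3 * P.c31 + cj P.c31 + (4 * P.c22 : ℝ)) * U).re = q14
  generalize ((10 * P.c50 + 6 * P.c41 + 3 * P.c32 + cj P.c32) * U ^ 2).re = q15
  generalize ((5 * P.c50 + 4 * P.c41 + cj P.c41 + 3 * P.c32 + 2 * cj P.c32) * U).re = q16
  generalize (kl t * U ^ 2).re = q17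
  generalize (P.c50 + P.c41 + P.c32).re = q18
  generalize (kap t * Sg t 1).re = q19
  generalize (kap t ^ 2 * Sg t 2).re = q20
  generalize (kap t ^ 2 * ex t (-8) * cj (Lg t 2)).re = q21
  generalize (P.nu0 * lk t).re = q22
  generalize (P.nu1 * lk t).re = q23
  generalize (P.nu2 * lk t).re = q24
  generalize (P.nu3 * lk t).re = q25
  rw [hTr, hTi, hT]
  generalize w1 t * X + w2 t * cj X = W
  generalize (lk t * X).re = q26
  simp only [Complex.mul_re, Complex.mul_im, Complex.add_re, Complex.add_im, Complex.sub_re,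
    Complex.sub_im, Complex.conj_re, Complex.conj_im, Complex.ofReal_re, Complex.ofReal_im,
    Complex.re_ofNat, Complex.im_ofNat, Complex.normSq_apply, pow_two, cj]
  ring

end Pool.Agent.Helper40.DL
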